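import Mathlib
import Pool.Agent.Q99.RT.Defs
import Pool.Agent.Q99.RT.NonC
import Pool.Agent.Q99.RT.Unif
import Pool.Agent.Q99.RT.Cond2

set_option autoImplicit false

/-!
# Uniform regularity does not replace condition (b) in free spaces over `ℝ`-trees

Let `T` be the completed binary tree whose edges of level `n` have length `2^{-n-1}`; its space of
ends is the Cantor space with the ultrametric `2 · 2^{-|ξ ∧ η|}`. For `s ∈ {0,1}^n` let `p_s`, `p'_s`
be the ends `s1000...` and `s0000...`, and let `γ_n = ∑_s (δ(p_s) - δ(p'_s))`, `W = {γ_n}`.

* (a): in the identification of `F(T)` with `L₁` of the length measure, each `γ_n` is a function with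
  values in `{-1, 0, 1}`.
* Uniform regularity: for open `U` choose a compact subset `K` of the ends in `U` which carries almost
  all of the coin tossing measure of `U`. If `p_s` is at distance at least `c 2^{-n}` from `K ∪ Uᶜ`,
  then a ball of measure about `c 2^{-n}` around it is contained in `U \ K`, hence there are few such
  `s`, uniformly in `n`.
* Given finitely many points of `T` there is a `1`-Lipschitz function vanishing at these points with
  `⟨f, γ_n⟩ ≥ 1/4` for all large `n`. Hence `W` is not relatively weakly compact.
-/

namespace Pool.Agent.Results.MP_13bb8c_an.DyadicTree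

open Q99.RT Pool.Agent.H266R3.LF

/-- There are a compact `ℝ`-tree `T` and a bounded subset of the Lipschitz-free space of `T` which
satisfies condition (a) and is uniformly regular, but which is not relatively weakly compact. -/
theorem result : ∃ (T : Type) (_ : MetricSpace T) (o : T), CompactSpace T ∧ IsRTree T ∧
    ∃ W : Set (FreeSp T o), Bornology.IsBounded W ∧ CondA W ∧ UniformlyRegular W ∧
      ¬ RelWeaklyCompact W := by
  refine ⟨TT, inferInstance, oo, compactTT, isRTree_TT, Set.range gam, ?_, condA, uniformlyRegular,
    not_relWeaklyCompact⟩
  refine isBounded_iff_forall_norm_le.2 ⟨2, ?_⟩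
  rintro _ ⟨n, rfl⟩
  exact norm_gam_le n

end Pool.Agent.Results.MP_13bb8c_an.DyadicTree
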